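import Pool.Agent.Helper79.PE.M_Dim
import Pool.Agent.Helper10.W5.M_EvU
import Pool.Agent.Helper24.W5.M_TA
import Pool.Agent.Helper67.W5.M_Int
import Pool.Agent.Helper71.W5.M_Ks
import Pool.Agent.Helper76.S7.Ub
import Pool.Agent.Helper79.S7.M_Crm
import Pool.Agent.Helper79.S7.M_Dim
import Pool.Agent.Helper82.WK.M_UIp

/-!
# Levels `p^n`, any prime `p`: Theorem A from the bounds for the dimensions, an integral basis and the lifting of symbols
-/

set_option autoImplicit false

namespace Pool.Agent.Helper79.PE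

open Pool.Agent.Helper14.W5 (LftP)
open Pool.Agent.Helper28.WK (TAp)
open Pool.Agent.Helper93.TLE (DDE)
open Pool.Agent.Helper76.S7 (ev b3a)
open Pool.Agent.Helper79.S7 (BasP BseW hKkW hCrm)

/-- Theorem A for the prime `p`. -/
theorem hTApOf (p D : ℕ) (dd : ℕ → ℕ) (hp : p.Prime) (b : B3bP p D) (ub : UBP p dd) (lb : LBP p D dd)
    (base : BseW p) (bas : BasP p (DDE D dd)) (lft : LftP p) : TAp p := by
  have phk := Pool.Agent.Helper69.W5.hPHk Pool.Agent.Helper10.CV.hN1
  have phkS := Pool.Agent.Helper83.W5.hPHkS phk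
  have pavg := Pool.Agent.Helper7.W5.hPAvg
  have pcom := Pool.Agent.Helper86.W5.hPCom
  have dim := hDim p D dd hp b3a b ub
  have nex := hNex p D dd hp b3a b ub lb
  have evu := Pool.Agent.Helper10.W5.hEvU phk phkS p hp
  have ks := Pool.Agent.Helper71.W5.hKs pavg pcom ev p hp nex evu
  have kk := hKkW p hp ks base
  have crm := hCrm p (DDE D dd) hp bas dim lft
  have int := Pool.Agent.Helper67.W5.hInt
    (Pool.Agent.Helper82.WK.hUIp Pool.Agent.Helper38.CV.hFar) p hp
  exact Pool.Agent.Helper24.W5.hTA pavg pcom ev p hp crm kk int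

end Pool.Agent.Helper79.PE
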