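import Pool.Agent.Helper79.TLN.Final

/-!
# Levels `p^n`, any prime `p`: all even weights `k ≥ 4` from Theorem A
-/

set_option autoImplicit false

namespace Pool.Agent.Helper79.PE

open Pool.Agent.Helper14.CV (G0)
open Pool.Agent.Helper14.WK Pool.Agent.Helper28.WK Pool.Agent.Helper28.LV Pool.Agent.Helper28.TL

/-- Prime power levels, from Theorem A for the prime. -/
theorem valPowOf (p : ℕ) (hpp : p.Prime) (hT : TAp p) (n : ℕ) (k : ℤ) (hk : 0 < k) (heven : Even k)
    (h4 : 4 ≤ k) (hne : NeZero (p ^ n)) (f : CuspForm (G0 (p ^ n)) k) (hf : IsNewN f)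
    (hε : RootOneK hk f) : LanK hk f (1 / 2) ≠ 0 := by
  obtain ⟨A, rfl⟩ : ∃ A : ℕ, k = 2 * A + 2 := by
    obtain ⟨r, hr⟩ := heven
    exact ⟨(r - 1).toNat, by omega⟩
  exact genAll p hpp hT A n (by omega) inferInstance hk f (Pool.Agent.Helper79.TLN.newA_of p n hpp f hf) hε

end Pool.Agent.Helper79.PE
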