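import Pool.Agent.Helper79.PE.Mu11
import Pool.Agent.Helper2.P11.StP

/-!
# Levels `11^n`: lifting solutions of the relation from `ZMod q` to the integers, planes of type `(r, 0)`
-/

set_option autoImplicit false

namespace Pool.Agent.Helper79.PE

open Pool.Agent.Helper84.P11 (tr11 S11Trm)
open Pool.Agent.Helper2.P11
open Pool.Agent.Helper79.THE (liftOrd liftFn)
open Pool.Agent.Helper79.PE.Mu11

namespace LiftM11

theorem main (hm : S11Trm) (r q : ℕ)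
    (f : Fin 3 → ZMod (11 ^ r) → ZMod (11 ^ 0) → ZMod q) (hf : Rel11 f) :
    ∃ F : Fin 3 → ZMod (11 ^ r) → ZMod (11 ^ 0) → ℤ, Rel11 F ∧
      ∀ i x y, ((F i x y : ℤ) : ZMod q) = f i x y := by
  obtain ⟨G1, c1⟩ := liftFn (P := Pq r) (fun p => f 1 p.1 p.2)
  obtain ⟨G2, c2⟩ := liftFn (P := Pq r) (fun p => f 2 p.1 p.2)
  let k : Pq r → ℤ := fun p => (G1 p - G1 (mu 7 (-2) 1 (-3) p)) + (G2 p - G2 (mu 8 (-3) 1 (-4) p))
  have hk : ∑ p, k p = 0 := by
    have s1 := sum_mu hm (r := r) 7 (-2) 1 (-3) (by norm_num) (by norm_num) (by norm_num) G1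
    have s2 := sum_mu hm (r := r) 8 (-3) 1 (-4) (by norm_num) (by norm_num) (by norm_num) G2
    simp only [k, Finset.sum_add_distrib, Finset.sum_sub_distrib]
    rw [s1, s2]
    ring
  obtain ⟨G0, d0, c0⟩ := solveM k hk (fun p => f 0 p.1 p.2) (fun p => by
    have h1 := hf p.1 p.2
    have h2 : f 0 p.1 p.2 - f 0 (mu 1 1 0 1 p).1 (mu 1 1 0 1 p).2 -
      (f 1 p.1 p.2 - f 1 (mu 7 (-2) 1 (-3) p).1 (mu 7 (-2) 1 (-3) p).2) -
      (f 2 p.1 p.2 - f 2 (mu 8 (-3) 1 (-4) p).1 (mu 8 (-3) 1 (-4) p).2) = 0 := h1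
    show f 0 p.1 p.2 - f 0 (mu 1 1 0 1 p).1 (mu 1 1 0 1 p).2 = ((k p : ℤ) : ZMod q)
    simp only [k]
    push_cast
    rw [c1, c1, c2, c2]
    linear_combination h2)
  refine ⟨![fun x y => G0 (x, y), fun x y => G1 (x, y), fun x y => G2 (x, y)], ?_, ?_⟩
  · intro x y
    have h := d0 (x, y)
    simp only [k] at h
    show G0 (x, y) - G0 (mu 1 1 0 1 (x, y)) - (G1 (x, y) - G1 (mu 7 (-2) 1 (-3) (x, y))) -
      (G2 (x, y) - G2 (mu 8 (-3) 1 (-4) (x, y))) = 0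
    linear_combination h
  · intro i x y
    fin_cases i
    · exact c0 (x, y)
    · exact c1 (x, y)
    · exact c2 (x, y)

end LiftM11

end Pool.Agent.Helper79.PE
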