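import Pool.Agent.Helper79.PE.Mu13
import Pool.Agent.Helper2.P13.StP

/-!
# Levels `13^n`: lifting solutions of the relations from `ZMod q` (`q` prime to `6`) to the integers, planes of type `(r, 0)`
-/

set_option autoImplicit false

namespace Pool.Agent.Helper79.PE

open Pool.Agent.Helper84.P13 (tr13 S13Trm)
open Pool.Agent.Helper2.P13
open Pool.Agent.Helper79.THE (liftOrd liftFn)
open Pool.Agent.Helper79.PE.Mu13

namespace LiftM13

private theorem inv2 (hm : S13Trm) {r : ℕ} (a b c : ℤ) (h : ¬ 13 ∣ a) (h2 : ¬ (13 : ℤ) ∣ a * a + 13 * b * c)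
    (p : Pq r) : (mu a b c (-a))^[2] p = p := by
  show mu a b c (-a) (mu a b c (-a) p) = p
  have h' : ¬ (13 : ℤ) ∣ -a := fun h0 => h ((dvd_neg).1 h0)
  rw [mu_mul hm h h' h h']
  have e2 : a * b + b * -a = 0 := by ring
  have e3 : c * a + -a * c = 0 := by ring
  have e4 : 13 * c * b + -a * -a = a * a + 13 * b * c := by ring
  rw [e2, e3, e4]
  exact mu_sc hm _ h2 p

/-- `ρ1` on points. -/
private def mr {r : ℕ} : Pq r → Pq r := mu 4 (-1) 1 (-3)

private theorem r2 (hm : S13Trm) {r : ℕ} (p : Pq r) : mr (mr p) = mu 3 (-1) 1 (-4) p := by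
  unfold mr
  rw [mu_mul hm (by norm_num) (by norm_num) (by norm_num) (by norm_num)]
  norm_num

private theorem r3 (hm : S13Trm) {r : ℕ} (p : Pq r) : mr (mr (mr p)) = p := by
  rw [r2 hm (mr p)]
  unfold mr
  have h := mu_sc hm (r := r) (-1) (by norm_num) p
  rw [mu_mul hm (by norm_num) (by norm_num) (by norm_num) (by norm_num)]
  norm_num
  exact h

/-- `ρ2` on points. -/
private def mt {r : ℕ} : Pq r → Pq r := mu 10 (-7) 1 (-9)

private theorem t2 (hm : S13Trm) {r : ℕ} (p : Pq r) : mt (mt p) = mu 9 (-7) 1 (-10) p := by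
  unfold mt
  rw [mu_mul hm (by norm_num) (by norm_num) (by norm_num) (by norm_num)]
  norm_num

private theorem t3 (hm : S13Trm) {r : ℕ} (p : Pq r) : mt (mt (mt p)) = p := by
  rw [t2 hm (mt p)]
  unfold mt
  have h := mu_sc hm (r := r) (-1) (by norm_num) p
  rw [mu_mul hm (by norm_num) (by norm_num) (by norm_num) (by norm_num)]
  norm_num
  exact h

private theorem sum3 {P R : Type} [AddCommMonoid R] (ρ : P → P) (f : P → R) (p : P) :
    ∑ i ∈ Finset.range 3, f (ρ^[i] p) = f p + f (ρ p) + f (ρ (ρ p)) := by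
  simp only [Finset.sum_range_succ, Finset.sum_range_zero, zero_add]
  rfl

theorem main (hm : S13Trm) (r q : ℕ) (hq : Nat.Coprime 6 q)
    (f : Fin 4 → ZMod (13 ^ r) → ZMod (13 ^ 0) → ZMod q) (hf : Rel13 f) :
    ∃ F : Fin 4 → ZMod (13 ^ r) → ZMod (13 ^ 0) → ℤ, Rel13 F ∧
      ∀ i x y, ((F i x y : ℤ) : ZMod q) = f i x y := by
  have h2q : Nat.Coprime 2 q := Nat.Coprime.coprime_dvd_left (by norm_num) hq
  have h3q : Nat.Coprime 3 q := Nat.Coprime.coprime_dvd_left (by norm_num) hq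
  obtain ⟨e1, e2, e3, e4⟩ := hf
  have E1 : ∀ p : Pq r, f 1 p.1 p.2 + f 1 (mr p).1 (mr p).2 +
      f 1 (mr (mr p)).1 (mr (mr p)).2 = 0 := by
    intro p
    rw [r2 hm]
    exact e1 p.1 p.2
  have E4 : ∀ p : Pq r, kP f p.1 p.2 + kP f (mt p).1 (mt p).2 +
      kP f (mt (mt p)).1 (mt (mt p)).2 = 0 := by
    intro p
    rw [t2 hm]
    exact e4 p.1 p.2
  obtain ⟨G1, a1, b1, c1⟩ := liftOrd 3 q (by norm_num) h3q (mr : Pq r → Pq r) (r3 hm)
    (fun p => f 1 p.1 p.2) (fun p => (sum3 mr (fun p : Pq r => f 1 p.1 p.2) p).trans (E1 p))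
  obtain ⟨G2, a2, b2, c2⟩ := liftOrd 2 q (by norm_num) h2q (mu 5 (-2) 1 (-5) : Pq r → Pq r)
    (inv2 hm 5 (-2) 1 (by norm_num) (by norm_num)) (fun p => f 2 p.1 p.2) (fun p => by
      rw [Finset.sum_range_succ, Finset.sum_range_one]
      exact e2 p.1 p.2)
  obtain ⟨G3, a3, b3, c3⟩ := liftOrd 2 q (by norm_num) h2q (mu 8 (-5) 1 (-8) : Pq r → Pq r)
    (inv2 hm 8 (-5) 1 (by norm_num) (by norm_num)) (fun p => f 3 p.1 p.2) (fun p => by
      rw [Finset.sum_range_succ, Finset.sum_range_one]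
      exact e3 p.1 p.2)
  obtain ⟨GK, aK, bK, cK⟩ := liftOrd 3 q (by norm_num) h3q (mt : Pq r → Pq r) (t3 hm)
    (fun p => kP f p.1 p.2) (fun p => (sum3 mt (fun p : Pq r => kP f p.1 p.2) p).trans (E4 p))
  let k : Pq r → ℤ := fun p => G1 p + G2 p + G3 p + GK p
  have hk : ∑ p, k p = 0 := by
    simp only [k, Finset.sum_add_distrib]
    rw [b1, b2, b3, bK]
    ring
  obtain ⟨G0, d0, c0⟩ := solveM k hk (fun p => f 0 p.1 p.2) (fun p => by
    show f 0 p.1 p.2 - f 0 (mu 1 1 0 1 p).1 (mu 1 1 0 1 p).2 = ((G1 p + G2 p + G3 p + GK p : ℤ) : ZMod q)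
    rw [Int.cast_add, Int.cast_add, Int.cast_add, c1, c2, c3, cK]
    show f 0 p.1 p.2 - f 0 (mu 1 1 0 1 p).1 (mu 1 1 0 1 p).2 = f 1 p.1 p.2 + f 2 p.1 p.2 + f 3 p.1 p.2 +
      (f 0 p.1 p.2 - f 0 (mu 1 1 0 1 p).1 (mu 1 1 0 1 p).2 - f 1 p.1 p.2 - f 2 p.1 p.2 - f 3 p.1 p.2)
    ring)
  refine ⟨![fun x y => G0 (x, y), fun x y => G1 (x, y), fun x y => G2 (x, y), fun x y => G3 (x, y)],
    ⟨?_, ?_, ?_, ?_⟩, ?_⟩
  · intro x y
    have h := a1 (x, y)
    rw [sum3, r2 hm] at h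
    exact h
  · intro x y
    have h := a2 (x, y)
    rw [Finset.sum_range_succ, Finset.sum_range_one] at h
    exact h
  · intro x y
    have h := a3 (x, y)
    rw [Finset.sum_range_succ, Finset.sum_range_one] at h
    exact h
  · intro x y
    have hkk : kP (![fun x y => G0 (x, y), fun x y => G1 (x, y), fun x y => G2 (x, y),
        fun x y => G3 (x, y)] : Fin 4 → ZMod (13 ^ r) → ZMod (13 ^ 0) → ℤ) = fun x y => GK (x, y) := by
      funext x y
      have h := d0 (x, y)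
      show G0 (x, y) - G0 (mu 1 1 0 1 (x, y)) - G1 (x, y) - G2 (x, y) - G3 (x, y) = GK (x, y)
      rw [h]
      show G1 (x, y) + G2 (x, y) + G3 (x, y) + GK (x, y) - G1 (x, y) - G2 (x, y) - G3 (x, y) = GK (x, y)
      ring
    rw [hkk]
    have h := aK (x, y)
    rw [sum3, t2 hm] at h
    exact h
  · intro i x y
    fin_cases i
    · exact c0 (x, y)
    · exact c1 (x, y)
    · exact c2 (x, y)
    · exact c3 (x, y)

end LiftM13

end Pool.Agent.Helper79.PE
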