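import Pool.Agent.Helper79.PE.M_Lf
import Pool.Agent.Helper79.PE.LiftCore11

/-!
# Levels `11^n`: lifting the symbols from `ZMod (11^M)` to the integers
-/

set_option autoImplicit false

namespace Pool.Agent.Helper79.PE

open Pool.Agent.Helper14.CV (Homog EqC act)
open Pool.Agent.Helper28.WK (SymP)
open Pool.Agent.Helper14.W5 (LftP SymP.add SymP.neg)
open Pool.Agent.Helper84.P11 (S11Trm edge11)
open Pool.Agent.Helper2.P11
open Lf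

private theorem rd_pf11 {M q q' : ℕ} (G : ℤ → ℤ → ℤ) (i : Fin 3) (x : ZMod q) (y : ZMod q') :
    pf11 (rd M G) i x y = ((pf11 G i x y : ℤ) : ZMod M) := by
  unfold pf11 edge11
  rw [Int.cast_sub]
  rfl

private theorem sub_pf11 {M q q' : ℕ} (G H : ℤ → ℤ → ZMod M) (i : Fin 3) (x : ZMod q)
    (y : ZMod q') : pf11 (G + -H) i x y = pf11 G i x y - pf11 H i x y := by
  unfold pf11 edge11
  simp only [Pi.add_apply, Pi.neg_apply]
  ring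

/-- LFT for the levels `11^n`. -/
theorem hLft11 (hm : S11Trm) (hRel : S11Rel) (hEx : S11Ex) (hUni : S11Uni) : LftP 11 := by
  intro m M g hm2 hg
  obtain ⟨r, rfl⟩ : ∃ r, m = r + 1 := ⟨m - 1, by omega⟩
  have h5 : (((11 : ℕ) : ℤ)) ≠ 0 := by norm_num
  have hg1 : SymP 11 r 1 (fun p q => g p (((11 : ℕ) : ℤ) ^ r * q)) := sym_up h5 hg
  have h1 := hRel (ZMod (11 ^ M)) _ r 0 _ hg1
  obtain ⟨F, hF, hF3⟩ := LiftM11.main hm r (11 ^ M) _ h1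
  obtain ⟨G1, hG, hG1⟩ := hEx ℤ _ r 0 F hF
  have h2 : SymP 11 r (0 + 1) (rd (11 ^ M) G1 + -(fun p q => g p (((11 : ℕ) : ℤ) ^ r * q))) :=
    SymP.add (rd_Sym hG) (SymP.neg hg1)
  have h3 : EqC (rd (11 ^ M) G1 + -(fun p q => g p (((11 : ℕ) : ℤ) ^ r * q))) 0 := by
    refine hUni (ZMod (11 ^ M)) _ r 0 _ h2 fun i => ?_
    funext x y
    rw [sub_pf11, rd_pf11, hG1, hF3, sub_self]
    rfl
  refine ⟨fun p q => G1 (((11 : ℕ) : ℤ) ^ r * p) q, sym_down h5 hG, ?_⟩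
  obtain ⟨c, hc⟩ := h3
  refine ⟨c, fun p q hpq => ?_⟩
  have h50 : ((11 : ℕ) : ℤ) ^ r ≠ 0 := by positivity
  have hnz : ((11 : ℕ) : ℤ) ^ r * p ≠ 0 ∨ q ≠ 0 := by
    rcases hpq with h0 | h0
    · exact Or.inl (mul_ne_zero h50 h0)
    · exact Or.inr h0
  have h5 := hc (((11 : ℕ) : ℤ) ^ r * p) q hnz
  have h6 := hg.1 (((11 : ℕ) : ℤ) ^ r) p q h50 hpq
  have h7 : ((G1 (((11 : ℕ) : ℤ) ^ r * p) q : ℤ) : ZMod (11 ^ M)) +
      -(g (((11 : ℕ) : ℤ) ^ r * p) (((11 : ℕ) : ℤ) ^ r * q)) = 0 + c := h5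
  rw [h6, zero_add] at h7
  change ((G1 (((11 : ℕ) : ℤ) ^ r * p) q : ℤ) : ZMod (11 ^ M)) = g p q + c
  rw [← h7]
  abel

end Pool.Agent.Helper79.PE
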