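import Pool.Agent.Helper79.PE.M_Lf
import Pool.Agent.Helper79.PE.LiftCore13

/-!
# Levels `13^n`: lifting the symbols from `ZMod (13^M)` to the integers
-/

set_option autoImplicit false

namespace Pool.Agent.Helper79.PE

open Pool.Agent.Helper14.CV (Homog EqC act)
open Pool.Agent.Helper28.WK (SymP)
open Pool.Agent.Helper14.W5 (LftP SymP.add SymP.neg)
open Pool.Agent.Helper84.P13 (S13Trm edge13)
open Pool.Agent.Helper2.P13
open Lf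

private theorem rd_pf13 {M q q' : ℕ} (G : ℤ → ℤ → ℤ) (i : Fin 4) (x : ZMod q) (y : ZMod q') :
    pf13 (rd M G) i x y = ((pf13 G i x y : ℤ) : ZMod M) := by
  unfold pf13 edge13
  rw [Int.cast_sub]
  rfl

private theorem sub_pf13 {M q q' : ℕ} (G H : ℤ → ℤ → ZMod M) (i : Fin 4) (x : ZMod q)
    (y : ZMod q') : pf13 (G + -H) i x y = pf13 G i x y - pf13 H i x y := by
  unfold pf13 edge13
  simp only [Pi.add_apply, Pi.neg_apply]
  ring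

/-- LFT for the levels `13^n`. -/
theorem hLft13 (hm : S13Trm) (hRel : S13Rel) (hEx : S13Ex) (hUni : S13Uni) : LftP 13 := by
  intro m M g hm2 hg
  obtain ⟨r, rfl⟩ : ∃ r, m = r + 1 := ⟨m - 1, by omega⟩
  have h5 : (((13 : ℕ) : ℤ)) ≠ 0 := by norm_num
  have hg1 : SymP 13 r 1 (fun p q => g p (((13 : ℕ) : ℤ) ^ r * q)) := sym_up h5 hg
  have h1 := hRel (ZMod (13 ^ M)) _ r 0 _ hg1
  obtain ⟨F, hF, hF3⟩ := LiftM13.main hm r (13 ^ M) (Nat.Coprime.pow_right M (by norm_num)) _ h1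
  obtain ⟨G1, hG, hG1⟩ := hEx ℤ _ r 0 F hF
  have h2 : SymP 13 r (0 + 1) (rd (13 ^ M) G1 + -(fun p q => g p (((13 : ℕ) : ℤ) ^ r * q))) :=
    SymP.add (rd_Sym hG) (SymP.neg hg1)
  have h3 : EqC (rd (13 ^ M) G1 + -(fun p q => g p (((13 : ℕ) : ℤ) ^ r * q))) 0 := by
    refine hUni (ZMod (13 ^ M)) _ r 0 _ h2 fun i => ?_
    funext x y
    rw [sub_pf13, rd_pf13, hG1, hF3, sub_self]
    rfl
  refine ⟨fun p q => G1 (((13 : ℕ) : ℤ) ^ r * p) q, sym_down h5 hG, ?_⟩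
  obtain ⟨c, hc⟩ := h3
  refine ⟨c, fun p q hpq => ?_⟩
  have h50 : ((13 : ℕ) : ℤ) ^ r ≠ 0 := by positivity
  have hnz : ((13 : ℕ) : ℤ) ^ r * p ≠ 0 ∨ q ≠ 0 := by
    rcases hpq with h0 | h0
    · exact Or.inl (mul_ne_zero h50 h0)
    · exact Or.inr h0
  have h5 := hc (((13 : ℕ) : ℤ) ^ r * p) q hnz
  have h6 := hg.1 (((13 : ℕ) : ℤ) ^ r) p q h50 hpq
  have h7 : ((G1 (((13 : ℕ) : ℤ) ^ r * p) q : ℤ) : ZMod (13 ^ M)) +
      -(g (((13 : ℕ) : ℤ) ^ r * p) (((13 : ℕ) : ℤ) ^ r * q)) = 0 + c := h5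
  rw [h6, zero_add] at h7
  change ((G1 (((13 : ℕ) : ℤ) ^ r * p) q : ℤ) : ZMod (13 ^ M)) = g p q + c
  rw [← h7]
  abel

end Pool.Agent.Helper79.PE
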