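import Pool.Agent.Helper79.S7.StE
import Pool.Agent.Helper93.TLE.Defs

/-!
# Levels `p^n`, any prime `p`: the hypotheses of Theorem A
-/

set_option autoImplicit false

namespace Pool.Agent.Helper79.PE

open Pool.Agent.Helper14.CV (Homog EqC act Tl)
open Pool.Agent.Helper28.WK (SymP Tw evw Ok)
open Pool.Agent.Helper14.W5 (NSP evLP)
open Pool.Agent.Helper93.TLE (DDE)

/-- B3b: the values at words of the symbols of level `p^2` span at most `D` dimensions. -/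
def B3bP (p D : ℕ) : Prop := ∃ e : Fin D → List ℕ → ℂ, ∀ G : ℤ → ℤ → ℂ, SymP p 0 2 G →
  ∃ x : Fin D → ℂ, ∀ ls : List ℕ, Ok p ls → evw 1 ls G = ∑ i, x i * e i ls

/-- UB: the space of new symbols of level `p^n` modulo constants has dimension at most `dd n` (`n ≥ 3`). -/
def UBP (p : ℕ) (dd : ℕ → ℕ) : Prop := ∀ n : ℕ, 3 ≤ n → ∃ Θ : NSP p n →ₗ[ℂ] (Fin (dd n) → ℂ),
  ∀ G : NSP p n, Θ G = 0 → EqC (G : ℤ → ℤ → ℂ) 0

/-- LB: the image of `evLP p` on the symbols of level `p^n` has dimension at least `D + ∑_{3 ≤ m ≤ n} dd m` (`n ≥ 2`). -/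
def LBP (p D : ℕ) (dd : ℕ → ℕ) : Prop := ∀ n : ℕ, 2 ≤ n →
  ∃ G : Fin (DDE D dd n) → (ℤ → ℤ → ℂ), (∀ k, SymP p 0 n (G k)) ∧
  LinearIndependent ℂ (fun k => evLP p (G k))

end Pool.Agent.Helper79.PE
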