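import Pool.Agent.Helper79.PE.Asm
import Pool.Agent.Helper79.PE.M_Lft11
import Pool.Agent.Helper4.P11.LB
import Pool.Agent.Helper76.P11.Ub
import Pool.Agent.Helper76.Bq.M_Bas11
import Pool.Agent.Helper83.P1C.Asm11

/-!
# Levels `11^n`: Theorem A modulo every power of `11`
-/

set_option autoImplicit false

namespace Pool.Agent.Helper79.PE

open Pool.Agent.Helper83.P1C (b3bP bs11 core2_11)
open Pool.Agent.Helper4.P11 (lb11 triT lifT cntT relT exT uniT)
open Pool.Agent.Helper76.P11 (dd11 ub11)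

/-- Theorem A for the prime `11`. -/
theorem tap11 : Pool.Agent.Helper28.WK.TAp 11 :=
  hTApOf 11 5 dd11 (by norm_num) (b3bP (by norm_num) bs11) ub11 lb11 (core2_11 lb11)
    (Pool.Agent.Helper76.Bq.hBas11 triT lifT cntT)
    (hLft11 Pool.Agent.Helper84.P11.trm relT exT uniT)

end Pool.Agent.Helper79.PE
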