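import Pool.Agent.Helper79.PE.Asm
import Pool.Agent.Helper79.PE.M_Lft13
import Pool.Agent.Helper4.P13.LB
import Pool.Agent.Helper76.P13.Ub
import Pool.Agent.Helper76.Bq.M_Bas13
import Pool.Agent.Helper83.P13.Asm13

/-!
# Levels `13^n`: Theorem A modulo every power of `13`
-/

set_option autoImplicit false

namespace Pool.Agent.Helper79.PE

open Pool.Agent.Helper83.P1C (b3bP)
open Pool.Agent.Helper83.P13 (bs13 core2_13)
open Pool.Agent.Helper4.P13 (lb13 triT lifT cntT relT exT uniT)
open Pool.Agent.Helper76.P13 (dd13 ub13)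

/-- Theorem A for the prime `13`. -/
theorem tap13 : Pool.Agent.Helper28.WK.TAp 13 :=
  hTApOf 13 6 dd13 (by norm_num) (b3bP (by norm_num) bs13) ub13 lb13 (core2_13 lb13)
    (Pool.Agent.Helper76.Bq.hBas13 triT lifT cntT)
    (hLft13 Pool.Agent.Helper84.P13.trm relT exT uniT)

end Pool.Agent.Helper79.PE
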